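import Pool.Agent.R3M.Stmts
import Pool.Agent.R3M.Kit

/-!
# R3M, rows VSE, VFO, VLO, UPE, EXT
-/

set_option autoImplicit false

namespace Pool.Agent.Helper85_R3M

open Pool.Agent.R3M Pool.Agent.R3M.Kit

theorem vse : VseStmt := by
  intro α _ M N n S φ θ k I e f f' hC hP hI hk hu hu'
  have hA := up_ci hI hu
  have hB := up_ci hI hu'
  have lA := up_level hu
  have lB := up_level hu'
  by_cases hff : f = f'
  · rw [hff]
  have hn : Near (insert e (I.erase f)) (insert e (I.erase f')) := by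
    refine near_of_sub f' f (fun x hx hn => ?_) (fun x hx hn => ?_)
    · rcases mem_exch.mp hx with h | h
      · exact absurd (mem_exch.mpr (Or.inl h)) hn
      · by_contra hne
        exact hn (mem_exch.mpr (Or.inr ⟨hne, h.2⟩))
    · rcases mem_exch.mp hx with h | h
      · exact absurd (mem_exch.mpr (Or.inl h)) hn
      · by_contra hne
        exact hn (mem_exch.mpr (Or.inr ⟨hne, h.2⟩))
  have hal : Alw S (insert e (I.erase f)) (insert e (I.erase f')) := by
    refine Or.inl ⟨f, Or.inr ⟨?_, ?_⟩, hu.2.2.2.1⟩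
    · exact mem_exch.mpr (Or.inr ⟨hff, hu.2.2.1⟩)
    · intro h
      rcases mem_exch.mp h with h | h
      · exact hu.2.1 (h ▸ hu.2.2.1)
      · exact h.1 rfl
  have h1 := clo_tri hC hI hA hB (near_exch I e f) hn (near_exch I e f')
  have h2 := hP _ _ hA hB hn (by omega) (by omega) hal
  omega

theorem vfo : VfoStmt := by
  intro α _ M N n S φ θ k I J e f e' f' hC hP hI hk hu hu' hF
  have hA := up_ci hI hu
  have hB := up_ci hI hu'
  have lA := up_level hu
  have lB := up_level hu'
  obtain ⟨hJ, h1, h2, h3, h4, h5⟩ := hF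
  have e1 := clo_sq hC hI hA hJ hB (near_exch I e f) h1 (near_exch I e' f') (near_symm h2)
  have e2 := hP _ _ hA hJ h1 (by omega) (by omega) h4
  have e3 := hP _ _ hB hJ (near_symm h2) (by omega) (by omega) (alw_symm h5)
  omega

theorem vlo : VloStmt := by
  intro α _ M N n S φ θ k I e f e' f' hS hC hP hI hk h1 hu hu'
  obtain ⟨w, hw⟩ := Finset.card_eq_one.mp h1
  have hfw : f = w := Finset.mem_singleton.mp (hw ▸ Finset.mem_sdiff.mpr ⟨hu.2.2.1, hu.2.2.2.1⟩)
  have hfw' : f' = w := Finset.mem_singleton.mp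
    (hw ▸ Finset.mem_sdiff.mpr ⟨hu'.2.2.1, hu'.2.2.2.1⟩)
  subst hfw
  subst hfw'
  have hA := up_ci hI hu
  have hB := up_ci hI hu'
  have lA := up_level hu
  have lB := up_level hu'
  have hsub : ∀ x, x ∈ S → insert x (I.erase f') ⊆ S := by
    intro x hx u hu
    rcases mem_exch.mp hu with h | h
    · exact h ▸ hx
    · by_contra hn
      have : u ∈ I \ S := Finset.mem_sdiff.mpr ⟨h.2, hn⟩
      rw [hw] at this
      exact h.1 (Finset.mem_singleton.mp this)
  have hn : Near (insert e (I.erase f')) (insert e' (I.erase f')) := by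
    refine near_of_sub e e' (fun x hx hn => ?_) (fun x hx hn => ?_)
    · rcases mem_exch.mp hx with h | h
      · exact h
      · exact absurd (mem_exch.mpr (Or.inr h)) hn
    · rcases mem_exch.mp hx with h | h
      · exact h
      · exact absurd (mem_exch.mpr (Or.inr h)) hn
  have h1 := clo_tri hC hI hA hB (near_exch I e f') hn (near_exch I e' f')
  have h2 := hP _ _ hA hB hn (by omega) (by omega)
    (Or.inr ⟨hsub e hu.1, hsub e' hu'.1⟩)
  omega

theorem upe (lci : LciStmt) : UpeStmt := by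
  intro α _ M N n S I hS hI hsub
  obtain ⟨e, heS, heI, hM⟩ := M.aug hI.1 hS.cS.1 (by rw [hI.2.2, hS.cS.2.2]; omega)
  by_cases hN : N.Ind (insert e I)
  · obtain ⟨f, hf, hfS⟩ := Finset.not_subset.mp hsub
    refine ⟨e, f, heS, heI, hf, hfS, M.sub hM ?_, N.sub hN ?_⟩
    · exact Finset.insert_subset_insert _ (Finset.erase_subset _ _)
    · exact Finset.insert_subset_insert _ (Finset.erase_subset _ _)
  · obtain ⟨f, hf, hfS, hi⟩ := lci α N I S e hI.2.1 hS.cS.2.1 heS heI hN
    refine ⟨e, f, heS, heI, hf, hfS, M.sub hM ?_, hi⟩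
    exact Finset.insert_subset_insert _ (Finset.erase_subset _ _)

theorem ext (val : ValStmt) : ExtStmt := by
  intro α _ M N n S φ θ k hS hC hP
  classical
  have key : ∃ θ' : Finset α → ℤ, ∀ I : Finset α,
      (k + 1 ≤ (I ∩ S).card → θ' I = θ I) ∧
      ((I ∩ S).card = k → CI M N n I → ∀ e f, Up M N S I e f →
        θ' I = θ (insert e (I.erase f)) - φ I (insert e (I.erase f))) := by
    refine ⟨fun I => if h : CI M N n I ∧ (I ∩ S).card = k ∧ ∃ p : α × α, Up M N S I p.1 p.2 then
      θ (insert h.2.2.choose.1 (I.erase h.2.2.choose.2)) -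
        φ I (insert h.2.2.choose.1 (I.erase h.2.2.choose.2)) else θ I, fun I => ⟨?_, ?_⟩⟩
    · intro hk
      have : ¬ (CI M N n I ∧ (I ∩ S).card = k ∧ ∃ p : α × α, Up M N S I p.1 p.2) := by
        rintro ⟨_, h, _⟩
        omega
      simp only [dif_neg this]
    · intro hk hI e f hu
      have h : CI M N n I ∧ (I ∩ S).card = k ∧ ∃ p : α × α, Up M N S I p.1 p.2 :=
        ⟨hI, hk, ⟨(e, f), hu⟩⟩
      simp only [dif_pos h]
      exact val α M N n S φ θ k I _ _ e f hS hC hP hI hk h.2.2.choose_spec hu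
  obtain ⟨θ', hθ⟩ := key
  refine ⟨θ', ?_, ?_⟩
  · intro I J hI hJ hn h1 h2 hA
    rw [(hθ I).1 h1, (hθ J).1 h2]
    exact hP I J hI hJ hn h1 h2 hA
  · intro I e f hI hk hu
    have h1 := (hθ I).2 hk hI e f hu
    have h2 := (hθ (insert e (I.erase f))).1 (by rw [up_level hu, hk])
    omega

end Pool.Agent.Helper85_R3M
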